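import Mathlib

open scoped RealInnerProductSpace

namespace Pool.Agent.MP_f0e28a_gt.H81

/-- `F` is a face of `C`: a convex subset of `C` containing both ends of every segment of `C`
whose open part meets it. -/
def IsFace {n : ℕ} (C F : Set (EuclideanSpace ℝ (Fin n))) : Prop :=
  Convex ℝ F ∧ F ⊆ C ∧ ∀ x ∈ C, ∀ y ∈ C, (openSegment ℝ x y ∩ F).Nonempty → x ∈ F ∧ y ∈ F

/-- The facial dimension signature. -/
def signature {n : ℕ} (C : Set (EuclideanSpace ℝ (Fin n))) : Set ℕ :=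
  {d | ∃ F, F.Nonempty ∧ IsFace C F ∧ Module.finrank ℝ (affineSpan ℝ F).direction = d}

/-- Every nonempty proper face is cut out by a supporting hyperplane. -/
def FaciallyExposed {n : ℕ} (C : Set (EuclideanSpace ℝ (Fin n))) : Prop :=
  ∀ F, F.Nonempty → F ≠ C → IsFace C F →
    ∃ (a : EuclideanSpace ℝ (Fin n)) (b : ℝ), a ≠ 0 ∧ (∀ x ∈ C, ⟪a, x⟫ ≤ b) ∧
      F = {x ∈ C | ⟪a, x⟫ = b}

/-- Spectrahedra. -/
def IsSpectrahedron {n : ℕ} (S : Set (EuclideanSpace ℝ (Fin n))) : Prop :=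
  ∃ (m : ℕ) (A₀ : Matrix (Fin m) (Fin m) ℝ) (A : Fin n → Matrix (Fin m) (Fin m) ℝ),
    A₀.IsSymm ∧ (∀ i, (A i).IsSymm) ∧ S = {x | (A₀ + ∑ i, x i • A i).PosSemidef}

/-- The polar set. -/
def polar {n : ℕ} (C : Set (EuclideanSpace ℝ (Fin n))) : Set (EuclideanSpace ℝ (Fin n)) :=
  {y | ∀ x ∈ C, ⟪x, y⟫ ≤ 1}

end Pool.Agent.MP_f0e28a_gt.H81
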