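import Pool.Agent.MP_f0e28a_gt.H81.Defs

open scoped RealInnerProductSpace
open Set Module

namespace Pool.Agent.MP_f0e28a_gt.H81

abbrev E (n : ℕ) := EuclideanSpace ℝ (Fin n)

variable {n : ℕ}

/-- direction space -/
noncomputable def dr (F : Set (E n)) : Submodule ℝ (E n) := (affineSpan ℝ F).direction

lemma dr_eq (F : Set (E n)) : dr F = vectorSpan ℝ F := direction_affineSpan ℝ F

lemma dr_mono {A B : Set (E n)} (h : A ⊆ B) : dr A ≤ dr B :=
  AffineSubspace.direction_le (affineSpan_mono ℝ h)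

lemma mem_signature {C : Set (E n)} {d : ℕ} :
    d ∈ signature C ↔ ∃ F : Set (E n), F.Nonempty ∧ IsFace C F ∧ finrank ℝ (dr F) = d := Iff.rfl

lemma shrink {C : Set (E n)} (hC : Convex ℝ C) {p v : E n} (hp : p ∈ C) {ε δ : ℝ}
    (h : p + ε • v ∈ C) (hδ0 : 0 ≤ δ) (hδ : δ ≤ ε) (hε : 0 < ε) : p + δ • v ∈ C := by
  have := hC hp h (a := 1 - δ / ε) (b := δ / ε) (by rw [sub_nonneg, div_le_one hε]; exact hδ)
    (by positivity) (by ring)
  convert this using 1
  rw [smul_add, smul_smul, div_mul_cancel₀ _ hε.ne', ← add_assoc, ← add_smul]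
  simp

/-- two-sided feasible directions -/
def dirs {C : Set (E n)} (hC : Convex ℝ C) {p : E n} (hp : p ∈ C) : Submodule ℝ (E n) where
  carrier := {v | ∃ ε : ℝ, 0 < ε ∧ p + ε • v ∈ C ∧ p + ε • (-v) ∈ C}
  zero_mem' := ⟨1, one_pos, by simpa using hp, by simpa using hp⟩
  add_mem' := by
    rintro u v ⟨ε, hε, h1, h2⟩ ⟨δ, hδ, h3, h4⟩
    have m0 : 0 < min ε δ := lt_min hε hδ
    have a1 := shrink hC hp h1 m0.le (min_le_left _ _) hε
    have a2 := shrink hC hp h2 m0.le (min_le_left _ _) hε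
    have a3 := shrink hC hp h3 m0.le (min_le_right _ _) hδ
    have a4 := shrink hC hp h4 m0.le (min_le_right _ _) hδ
    refine ⟨min ε δ / 2, by positivity, ?_, ?_⟩
    · convert hC a1 a3 (a := 1 / 2) (b := 1 / 2) (by norm_num) (by norm_num) (by norm_num) using 1
      module
    · convert hC a2 a4 (a := 1 / 2) (b := 1 / 2) (by norm_num) (by norm_num) (by norm_num) using 1
      module
  smul_mem' := by
    rintro c v ⟨ε, hε, h1, h2⟩
    rcases lt_trichotomy c 0 with hc | hc | hc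
    · refine ⟨ε / (-c), div_pos hε (by linarith), ?_, ?_⟩
      · convert h2 using 2
        rw [smul_smul, smul_neg, ← neg_smul]
        congr 1
        field_simp [hc.ne]
      · convert h1 using 2
        rw [← neg_smul, smul_smul]
        congr 1
        field_simp [hc.ne]
    · subst hc
      exact ⟨1, one_pos, by simpa using hp, by simpa using hp⟩
    · refine ⟨ε / c, div_pos hε hc, ?_, ?_⟩
      · convert h1 using 2
        rw [smul_smul]
        congr 1
        field_simp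
      · convert h2 using 2
        rw [← smul_neg, smul_smul]
        congr 1
        field_simp

/-- the smallest face containing `p` -/
def minFace (C : Set (E n)) (p : E n) : Set (E n) :=
  {y ∈ C | ∃ ε : ℝ, 0 < ε ∧ p + ε • (p - y) ∈ C}

lemma mem_minFace_self {C : Set (E n)} {p : E n} (hp : p ∈ C) : p ∈ minFace C p :=
  ⟨hp, 1, one_pos, by simpa using hp⟩

lemma sub_mem_dirs {C : Set (E n)} (hC : Convex ℝ C) {p : E n} (hp : p ∈ C) {y : E n}
    (hy : y ∈ minFace C p) : y - p ∈ dirs hC hp := by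
  obtain ⟨h1, ε, hε, h2⟩ := hy
  have m0 : 0 < min ε 1 := lt_min hε one_pos
  refine ⟨min ε 1, m0, ?_, ?_⟩
  · exact shrink hC hp (ε := 1) (by simpa using h1) m0.le (min_le_right _ _) one_pos
  · rw [neg_sub]
    exact shrink hC hp h2 m0.le (min_le_left _ _) hε

lemma minFace_isFace {C : Set (E n)} (hC : Convex ℝ C) {p : E n} (hp : p ∈ C) :
    IsFace C (minFace C p) := by
  have key : ∀ x ∈ C, ∀ y ∈ C, (openSegment ℝ x y ∩ minFace C p).Nonempty → x ∈ minFace C p := by
    rintro u hu v hv ⟨z, ⟨a, b, ha, hb, hab, rfl⟩, -, ε, hε, hw⟩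
    have hd : 0 < 1 + ε * b := by positivity
    refine ⟨hu, ε * a / (1 + ε * b), by positivity, ?_⟩
    have := hC hw hv (a := 1 / (1 + ε * b)) (b := ε * b / (1 + ε * b)) (by positivity)
      (by positivity) (by field_simp)
    convert this using 1
    have e : a = 1 - b := by linarith
    subst e
    match_scalars <;> field_simp <;> ring
  refine ⟨?_, fun y hy => hy.1, fun x hx y hy h => ⟨key x hx y hy h, key y hy x hx ?_⟩⟩
  · intro u hu v hv a b ha hb hab
    refine ⟨hC hu.1 hv.1 ha hb hab, ?_⟩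
    have h1 := (dirs hC hp).add_mem ((dirs hC hp).smul_mem a (sub_mem_dirs hC hp hu))
      ((dirs hC hp).smul_mem b (sub_mem_dirs hC hp hv))
    obtain ⟨ε, hε, -, h2⟩ := h1
    refine ⟨ε, hε, ?_⟩
    convert h2 using 3
    have e : a = 1 - b := by linarith
    subst e
    module
  · rwa [openSegment_symm]

lemma minFace_subset {C F : Set (E n)} (hF : IsFace C F) {p : E n} (hp : p ∈ F) :
    minFace C p ⊆ F := by
  rintro y ⟨hy, ε, hε, hw⟩
  refine (hF.2.2 y hy _ hw ⟨p, ⟨ε / (1 + ε), 1 / (1 + ε), by positivity, by positivity,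
    by field_simp; ring, ?_⟩, hp⟩).1
  match_scalars <;> field_simp <;> ring

lemma direction_minFace_le {C : Set (E n)} (hC : Convex ℝ C) {p : E n} (hp : p ∈ C) :
    dr (minFace C p) ≤ dirs hC hp := by
  rw [dr_eq, vectorSpan_eq_span_vsub_set_right ℝ (mem_minFace_self hp),
    Submodule.span_le]
  rintro _ ⟨y, hy, rfl⟩
  exact sub_mem_dirs hC hp hy

lemma endpoint {C : Set (E n)} (hc : IsClosed C) (hC : Convex ℝ C) {m : E n} (hm : m ∈ C)
    (d : E n) : (∀ x ∈ C, x + d ∈ C) ∨
      ∃ τ : ℝ, 0 ≤ τ ∧ m + τ • d ∈ C ∧ ∀ ε : ℝ, 0 < ε → m + (τ + ε) • d ∉ C := by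
  set T : Set ℝ := {τ | m + τ • d ∈ C} with hT
  have h0 : (0 : ℝ) ∈ T := by simpa [hT] using hm
  have hTc : IsClosed T := hc.preimage (by fun_prop : Continuous fun τ : ℝ => m + τ • d)
  by_cases hb : BddAbove T
  · right
    refine ⟨sSup T, le_csSup hb h0, hTc.csSup_mem ⟨0, h0⟩ hb, fun ε hε h => ?_⟩
    have := le_csSup hb (show sSup T + ε ∈ T from h)
    linarith
  · left
    intro x hx
    have hall : ∀ k : ℕ, m + ((k : ℝ) + 1) • d ∈ C := by
      intro k
      rw [not_bddAbove_iff] at hb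
      obtain ⟨t, ht, h⟩ := hb ((k : ℝ) + 1)
      have k0 : (0 : ℝ) < (k : ℝ) + 1 := by positivity
      exact shrink hC hm ht k0.le h.le (by linarith)
    have hlim : Filter.Tendsto (fun k : ℕ => x + d + (1 / ((k : ℝ) + 1)) • (m - x)) Filter.atTop
        (nhds (x + d + (0 : ℝ) • (m - x))) :=
      (tendsto_one_div_add_atTop_nhds_zero_nat.smul_const (m - x)).const_add _
    rw [zero_smul, add_zero] at hlim
    refine hc.mem_of_tendsto hlim (Filter.Eventually.of_forall fun k => ?_)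
    have k0 : (0 : ℝ) < (k : ℝ) + 1 := by positivity
    have := hC hx (hall k) (a := 1 - 1 / ((k : ℝ) + 1)) (b := 1 / ((k : ℝ) + 1))
      (by rw [sub_nonneg, div_le_one k0]; linarith [Nat.cast_nonneg (α := ℝ) k]) (by positivity)
      (by ring)
    convert this using 1
    match_scalars <;> field_simp <;> ring

lemma polar_closed (S : Set (E n)) : IsClosed (polar S) := by
  have : polar S = ⋂ x ∈ S, {y | ⟪x, y⟫ ≤ 1} := by ext y; simp [polar]
  rw [this]
  exact isClosed_biInter fun x _ => isClosed_le (by fun_prop) continuous_const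

lemma polar_convex (S : Set (E n)) : Convex ℝ (polar S) := by
  intro u hu v hv a b ha hb hab x hx
  rw [inner_add_right, inner_smul_right, inner_smul_right]
  nlinarith [hu x hx, hv x hx]

lemma zero_mem_polar (S : Set (E n)) : (0 : E n) ∈ polar S := fun x _ => by simp

lemma bipolar {S : Set (E n)} (hc : IsClosed S) (hS : Convex ℝ S) (h0 : (0 : E n) ∈ S) {q : E n}
    (hq : ∀ y ∈ polar S, ⟪q, y⟫ ≤ 1) : q ∈ S := by
  by_contra hn
  obtain ⟨f, u, h1, h2⟩ := geometric_hahn_banach_closed_point hS hc hn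
  have hu : 0 < u := by simpa using h1 0 h0
  have key : ∀ x, ⟪x, u⁻¹ • (InnerProductSpace.toDual ℝ (E n)).symm f⟫ = u⁻¹ * f x := by
    intro x
    rw [inner_smul_right, real_inner_comm, InnerProductSpace.toDual_symm_apply]
  have := hq (u⁻¹ • (InnerProductSpace.toDual ℝ (E n)).symm f) (fun x hx => by
    rw [key, inv_mul_le_iff₀ hu]
    linarith [h1 x hx])
  rw [key, inv_mul_le_iff₀ hu] at this
  linarith

lemma exposed_isFace {C : Set (E n)} (hC : Convex ℝ C) (a : E n) (b : ℝ)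
    (h : ∀ x ∈ C, ⟪a, x⟫ ≤ b) : IsFace C {x ∈ C | ⟪a, x⟫ = b} := by
  refine ⟨?_, fun x hx => hx.1, ?_⟩
  · intro u hu v hv s t hs ht hst
    refine ⟨hC hu.1 hv.1 hs ht hst, ?_⟩
    rw [inner_add_right, inner_smul_right, inner_smul_right, hu.2, hv.2, ← add_mul, hst, one_mul]
  · rintro x hx y hy ⟨z, ⟨s, t, hs, ht, hst, rfl⟩, -, hz⟩
    rw [inner_add_right, inner_smul_right, inner_smul_right] at hz
    have h1 := h x hx
    have h2 := h y hy
    have e : s * b + t * b = b := by rw [← add_mul, hst, one_mul]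
    refine ⟨⟨hx, ?_⟩, hy, ?_⟩ <;> nlinarith

lemma self_isFace {C : Set (E n)} (hC : Convex ℝ C) : IsFace C C :=
  ⟨hC, Subset.rfl, fun _ hx _ hy _ => ⟨hx, hy⟩⟩

lemma eq_of_finrank_zero {F : Set (E n)} (h : finrank ℝ (dr F) = 0)
    {x y : E n} (hx : x ∈ F) (hy : y ∈ F) : x = y := by
  rw [Submodule.finrank_eq_zero, dr_eq] at h
  have := vsub_mem_vectorSpan ℝ hx hy
  rw [h, Submodule.mem_bot] at this
  exact sub_eq_zero.1 this

lemma exists_indep {F : Set (E n)} (h : 2 ≤ finrank ℝ (dr F)) {p : E n}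
    (hp : p ∈ F) : ∃ g1 ∈ F, ∃ g2 ∈ F,
      ∀ s t : ℝ, s • (g1 - p) + t • (g2 - p) = 0 → s = 0 ∧ t = 0 := by
  rw [dr_eq, vectorSpan_eq_span_vsub_set_right ℝ hp] at h
  have h1 : ∃ g1 ∈ F, g1 - p ≠ 0 := by
    by_contra hn
    push Not at hn
    have : Submodule.span ℝ ((fun x => x -ᵥ p) '' F) = ⊥ := by
      rw [Submodule.span_eq_bot]
      rintro _ ⟨x, hx, rfl⟩
      exact hn x hx
    rw [this, finrank_bot] at h
    omega
  obtain ⟨g1, hg1, hne⟩ := h1
  have h2 : ∃ g2 ∈ F, g2 - p ∉ Submodule.span ℝ ({g1 - p} : Set (E n)) := by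
    by_contra hn
    push Not at hn
    have : Submodule.span ℝ ((fun x => x -ᵥ p) '' F) ≤ Submodule.span ℝ ({g1 - p} : Set (E n)) := by
      rw [Submodule.span_le]
      rintro _ ⟨x, hx, rfl⟩
      exact hn x hx
    have a := Submodule.finrank_mono this
    rw [finrank_span_singleton hne] at a
    omega
  obtain ⟨g2, hg2, hns⟩ := h2
  refine ⟨g1, hg1, g2, hg2, fun s t hst => ?_⟩
  by_cases ht : t = 0
  · subst ht
    rw [zero_smul, add_zero, smul_eq_zero] at hst
    exact ⟨hst.resolve_right hne, rfl⟩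
  · exfalso
    apply hns
    rw [Submodule.mem_span_singleton]
    refine ⟨-s / t, ?_⟩
    have : g2 - p = t⁻¹ • (s • (g1 - p) + t • (g2 - p)) + (-s / t) • (g1 - p) := by
      match_scalars <;> field_simp <;> ring
    rw [this, hst]
    simp

/-- each extreme point of the facet other than the origin lies on another face with two points -/
lemma other_face {S : Set (E n)} (hc : IsClosed S) (hS : Convex ℝ S) (h0 : (0 : E n) ∈ S)
    (hpe : FaciallyExposed (polar S)) {a : E n} {b : ℝ} (ha : ∀ x ∈ S, ⟪a, x⟫ ≤ b)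
    (hproper : ∃ x ∈ S, ⟪a, x⟫ ≠ b) {p : E n} (hp : p ∈ S) (hpa : ⟪a, p⟫ = b) (hp0 : p ≠ 0)
    {y0 : E n} (hy0 : ∀ x ∈ S, x ≠ p → ⟪x, y0⟫ < 1) (hpy : ⟪p, y0⟫ = 1) :
    ∃ (y : E n) (β : ℝ), (∀ x ∈ S, ⟪y, x⟫ ≤ β) ∧ ⟪y, p⟫ = β ∧ (∃ q ∈ S, q ≠ p ∧ ⟪y, q⟫ = β) ∧
      ∀ x ∈ S, ⟪a, x⟫ = b → x ≠ p → ⟪y, x⟫ < β := by
  have hb : 0 ≤ b := by simpa using ha 0 h0
  have hy0' : ∀ x ∈ S, ⟪x, y0⟫ ≤ 1 := fun x hx => by
    by_cases h : x = p
    · rw [h, hpy]
    · exact (hy0 x hx h).le
  have hd : ∀ (x : E n) (τ : ℝ), ⟪x, y0 + τ • (b • y0 - a)⟫ =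
      (1 + τ * b) * ⟪x, y0⟫ - τ * ⟪a, x⟫ := by
    intro x τ
    rw [inner_add_right, inner_smul_right, inner_sub_right, inner_smul_right, real_inner_comm x a]
    ring
  rcases endpoint (polar_closed S) (polar_convex S) hy0' (b • y0 - a) with h | ⟨τ, hτ, h1, h2⟩
  · have hk : ∀ k : ℕ, (k : ℝ) • (b • y0 - a) ∈ polar S := by
      intro k
      induction k with
      | zero => simpa using zero_mem_polar S
      | succ k ih =>
        have := h _ ih
        push_cast
        rwa [add_smul, one_smul]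
    have hle : ∀ x ∈ S, ⟪b • y0 - a, x⟫ ≤ 0 := by
      intro x hx
      by_contra hn
      push Not at hn
      obtain ⟨k, hk'⟩ := exists_nat_gt (1 / ⟪b • y0 - a, x⟫)
      have := hk k x hx
      rw [inner_smul_right, real_inner_comm] at this
      rw [div_lt_iff₀ hn] at hk'
      linarith
    have hval : ∀ x, ⟪b • y0 - a, x⟫ = b * ⟪x, y0⟫ - ⟪a, x⟫ := fun x => by
      rw [inner_sub_left, inner_smul_left, real_inner_comm]; simp
    have hb0 : 0 < b := by
      rcases hb.lt_or_eq with h | h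
      · exact h
      · exfalso
        obtain ⟨x, hx, hxb⟩ := hproper
        have a1 := hle x hx
        rw [hval, ← h] at a1
        have a2 := ha x hx
        apply hxb
        linarith
    refine ⟨b • y0 - a, 0, hle, by rw [hval, hpy, hpa]; ring, ⟨0, h0, hp0.symm, by simp⟩, ?_⟩
    intro x hx hxa hxp
    rw [hval, hxa]
    nlinarith [hy0 x hx hxp]
  · set y := y0 + τ • (b • y0 - a) with hy
    have hyp : ⟪p, y⟫ = 1 := by rw [hy, hd, hpy, hpa]; ring
    have hnot0 : (0 : E n) ∉ minFace (polar S) y := by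
      rintro ⟨-, ε, hε, h⟩
      have := h p hp
      rw [inner_add_right, inner_smul_right, sub_zero, hyp] at this
      linarith
    obtain ⟨c, β, -, hc1, hc2⟩ := hpe (minFace (polar S) y) ⟨y, mem_minFace_self h1⟩
      (fun e => hnot0 (by rw [e]; exact zero_mem_polar S)) (minFace_isFace (polar_convex S) h1)
    have hβ0 : 0 ≤ β := by simpa using hc1 0 (zero_mem_polar S)
    have hβ : 0 < β := by
      rcases hβ0.lt_or_eq with h | h
      · exact h
      · exact absurd (by rw [hc2]; exact ⟨zero_mem_polar S, by simp [← h]⟩) hnot0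
    have hq : ∀ w, ⟪β⁻¹ • c, w⟫ = β⁻¹ * ⟪c, w⟫ := fun w => by rw [inner_smul_left]; simp
    have hqS : β⁻¹ • c ∈ S := bipolar hc hS h0 (fun w hw => by
      rw [hq, inv_mul_le_iff₀ hβ]; linarith [hc1 w hw])
    have hcy : ⟪c, y⟫ = β := by
      have := mem_minFace_self h1
      rw [hc2] at this
      exact this.2
    refine ⟨y, 1, fun x hx => by rw [real_inner_comm]; exact h1 x hx, by rw [real_inner_comm, hyp],
      ⟨β⁻¹ • c, hqS, ?_, by rw [real_inner_comm, hq, hcy, inv_mul_cancel₀ hβ.ne']⟩, ?_⟩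
    · intro e
      have μ0 : 0 < 1 / (1 + b) := by positivity
      have μ1 : 1 / (1 + b) * b ≤ 1 := by
        rw [div_mul_eq_mul_div, div_le_one (by positivity)]; linarith
      have m1 : y0 + (-(1 / (1 + b))) • (b • y0 - a) ∈ polar S := by
        intro x hx
        rw [hd]
        nlinarith [hy0' x hx, ha x hx, mul_le_mul_of_nonneg_left (hy0' x hx) (sub_nonneg.2 μ1),
          mul_le_mul_of_nonneg_left (ha x hx) μ0.le]
      have m2 : y0 + (-(1 / (1 + b))) • (b • y0 - a) ∈ minFace (polar S) y := by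
        rw [hc2]
        refine ⟨m1, ?_⟩
        have e1 := hq (y0 + (-(1 / (1 + b))) • (b • y0 - a))
        rw [e, hd, hpy, hpa] at e1
        have e2 : (1 : ℝ) = β⁻¹ * ⟪c, y0 + (-(1 / (1 + b))) • (b • y0 - a)⟫ := by
          rw [← e1]; ring
        rw [eq_inv_mul_iff_mul_eq₀ hβ.ne', mul_one] at e2
        exact e2.symm
      obtain ⟨-, ε, hε, h3⟩ := m2
      apply h2 (ε * (τ + 1 / (1 + b))) (by positivity)
      convert h3 using 1
      rw [hy]
      module
    · intro x hx hxa hxp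
      rw [real_inner_comm, hy, hd, hxa]
      have : 0 < 1 + τ * b := by positivity
      nlinarith [hy0 x hx hxp]

theorem neg_main {S : Set (E n)} (hc : IsClosed S) (hS : Convex ℝ S) (h0 : (0 : E n) ∈ S)
    (hsig : signature S = {0, 2, 3}) (he : FaciallyExposed S) : ¬ FaciallyExposed (polar S) := by
  intro hpe
  have hdim : ∀ F : Set (E n), F.Nonempty → IsFace S F → finrank ℝ (dr F) = 0 ∨
      finrank ℝ (dr F) = 2 ∨ finrank ℝ (dr F) = 3 := by
    intro F h1 h2
    have : finrank ℝ (dr F) ∈ signature S := ⟨F, h1, h2, rfl⟩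
    rw [hsig] at this
    simpa using this
  obtain ⟨F0, ⟨e, he0⟩, hF0, hd0⟩ := mem_signature.1 (show 0 ∈ signature S by rw [hsig]; simp)
  obtain ⟨F, ⟨f0, hf0⟩, hF, hd2⟩ := mem_signature.1 (show 2 ∈ signature S by rw [hsig]; simp)
  obtain ⟨F3, -, hF3, hd3⟩ := mem_signature.1 (show 3 ∈ signature S by rw [hsig]; simp)
  have hFS : F ≠ S := by
    rintro rfl
    have := Submodule.finrank_mono (dr_mono hF3.2.1)
    omega
  obtain ⟨a, b, -, ha, hFa⟩ := he F ⟨f0, hf0⟩ hFS hF
  have hproper : ∃ x ∈ S, ⟪a, x⟫ ≠ b := by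
    by_contra hn
    push Not at hn
    apply hFS
    rw [hFa]
    ext x
    exact ⟨fun h => h.1, fun h => ⟨h, hn x h⟩⟩
  obtain ⟨f1, hf1, f2, hf2, hind⟩ := exists_indep hd2.ge hf0
  have memF : ∀ {x}, x ∈ F → x ∈ S ∧ ⟪a, x⟫ = b := fun hx => by rw [hFa] at hx; exact hx
  -- extreme points on the lines parallel to `f2 - f0`
  have hext : ∀ s : Ioo (0 : ℝ) 1, ∃ τ : ℝ, f0 + (s : ℝ) • (f1 - f0) + τ • (f2 - f0) ∈ F ∧
      IsFace S {f0 + (s : ℝ) • (f1 - f0) + τ • (f2 - f0)} := by
    rintro ⟨s, hs0, hs1⟩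
    have hm : f0 + s • (f1 - f0) ∈ F := by
      have hFc : Convex ℝ F := hF.1
      convert hFc hf0 hf1 (a := 1 - s) (b := s) (by linarith) hs0.le (by ring) using 1
      module
    have hex : ∃ τ : ℝ, ∃ hτ : f0 + s • (f1 - f0) + τ • (f2 - f0) ∈ S, f2 - f0 ∉ dirs hS hτ := by
      rcases endpoint hc hS (memF hm).1 (f2 - f0) with h1 | ⟨τ, -, h1, h2⟩
      · rcases endpoint hc hS (memF hm).1 (-(f2 - f0)) with h2 | ⟨τ, -, h2, h3⟩
        · exfalso
          have eS := hF0.2.1 he0
          have := (hF0.2.2 _ (h1 e eS) _ (h2 e eS) ⟨e, ⟨1 / 2, 1 / 2, by norm_num, by norm_num,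
            by norm_num, by module⟩, he0⟩).1
          have e1 := eq_of_finrank_zero hd0 this he0
          have e2 : f2 - f0 = 0 := by simpa using e1
          have := (hind 0 1 (by rw [e2]; simp)).2
          norm_num at this
        · refine ⟨-τ, by convert h2 using 2; module, ?_⟩
          rintro ⟨ε, hε, -, h4⟩
          apply h3 ε hε
          convert h4 using 1
          module
      · refine ⟨τ, h1, ?_⟩
        rintro ⟨ε, hε, h4, -⟩
        apply h2 ε hε
        convert h4 using 1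
        module
    obtain ⟨τ, hτ, hnd⟩ := hex
    have hpF : f0 + s • (f1 - f0) + τ • (f2 - f0) ∈ F := by
      rw [hFa]
      refine ⟨hτ, ?_⟩
      rw [inner_add_right, (memF hm).2, inner_smul_right, inner_sub_right, (memF hf2).2,
        (memF hf0).2]
      ring
    refine ⟨τ, hpF, ?_⟩
    have hsub := minFace_subset hF hpF
    have hle := dr_mono hsub
    have hz : finrank ℝ (dr
        (minFace S (f0 + s • (f1 - f0) + τ • (f2 - f0)))) = 0 := by
      have h1 := Submodule.finrank_mono hle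
      rcases hdim _ ⟨_, mem_minFace_self hτ⟩ (minFace_isFace hS hτ) with h | h | h
      · exact h
      · exfalso
        apply hnd
        apply direction_minFace_le hS hτ
        rw [Submodule.eq_of_le_of_finrank_eq hle (by omega), dr_eq]
        exact vsub_mem_vectorSpan ℝ hf2 hf0
      · omega
    have : minFace S (f0 + s • (f1 - f0) + τ • (f2 - f0)) =
        {f0 + s • (f1 - f0) + τ • (f2 - f0)} := by
      ext x
      exact ⟨fun hx => eq_of_finrank_zero hz hx (mem_minFace_self hτ),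
        fun hx => by rw [hx]; exact mem_minFace_self hτ⟩
    show IsFace S {f0 + s • (f1 - f0) + τ • (f2 - f0)}
    rw [← this]
    exact minFace_isFace hS hτ
  choose τ hτF hτf using hext
  set P : Ioo (0 : ℝ) 1 → E n := fun s => f0 + (s : ℝ) • (f1 - f0) + τ s • (f2 - f0) with hP
  have hPinj : Function.Injective P := by
    intro s t hst
    have := (hind ((s : ℝ) - t) (τ s - τ t) (by
      have h : P s - P t = 0 := sub_eq_zero.2 hst
      rw [← h, hP]
      module)).1
    exact Subtype.ext (by linarith)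
  have hPf0 : ∀ s, f0 ≠ P s := by
    intro s h
    have := (hind s (τ s) (by
      have h' : P s - f0 = 0 := sub_eq_zero.2 h.symm
      rw [← h', hP]
      module)).1
    exact s.2.1.ne' this
  replace hτF : ∀ s, P s ∈ F := hτF
  replace hτf : ∀ s, IsFace S {P s} := hτf
  clear_value P
  set W := dr S with hW
  have hW3 : finrank ℝ W ≤ 3 := by
    rw [hW]
    rcases hdim S ⟨0, h0⟩ (self_isFace hS) with h | h | h <;> omega
  have hmemW : ∀ x ∈ S, x - f0 ∈ W := fun x hx => by
    rw [hW, dr_eq]; exact vsub_mem_vectorSpan ℝ hx (memF hf0).1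
  have hopen : ∀ s, P s ≠ 0 → ∃ (y : E n) (β : ℝ) (U : Set W), IsOpen U ∧ U.Nonempty ∧
      (∀ x ∈ S, ⟪y, x⟫ ≤ β) ∧ (∀ x ∈ F, x ≠ P s → ⟪y, x⟫ < β) ∧
      ∀ u ∈ U, ∃ (c : ℝ) (g : E n), 0 < c ∧ g ∈ S ∧ ⟪y, g⟫ = β ∧ P s ∈ minFace S g ∧
        (u : E n) = c • (g - f0) := by
    intro s hs0
    have hpS := (memF (hτF s)).1
    have hne : ({P s} : Set (E n)) ≠ S := by
      intro h
      have : f0 ∈ ({P s} : Set (E n)) := by rw [h]; exact (memF hf0).1
      exact hPf0 s this
    obtain ⟨a', b', -, ha', hpa'⟩ := he {P s} ⟨_, rfl⟩ hne (hτf s)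
    have hb' : ∀ x ∈ S, x ≠ P s → ⟪a', x⟫ < b' := fun x hx hxp =>
      lt_of_le_of_ne (ha' x hx) (fun h => hxp (by
        have : x ∈ ({P s} : Set (E n)) := by rw [hpa']; exact ⟨hx, h⟩
        exact this))
    have hb0 : 0 < b' := by simpa using hb' 0 h0 hs0.symm
    have hpb : ⟪a', P s⟫ = b' := by
      have : P s ∈ ({P s} : Set (E n)) := rfl
      rw [hpa'] at this
      exact this.2
    obtain ⟨y, β, hy1, hy2, ⟨q, hq1, hq2, hq3⟩, hy3⟩ := other_face hc hS h0 hpe ha hproper hpS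
      (memF (hτF s)).2 hs0 (y0 := b'⁻¹ • a')
      (fun x hx hxp => by
        rw [inner_smul_right, real_inner_comm, inv_mul_lt_iff₀ hb0, mul_one]; exact hb' x hx hxp)
      (by rw [inner_smul_right, real_inner_comm, hpb, inv_mul_cancel₀ hb0.ne'])
    have hG := exposed_isFace hS y β hy1
    have hG2 : 2 ≤ finrank ℝ (dr {x ∈ S | ⟪y, x⟫ = β}) := by
      rcases hdim {x ∈ S | ⟪y, x⟫ = β} ⟨P s, hpS, hy2⟩ hG with h | h | h
      · exact absurd (eq_of_finrank_zero h (x := q) (y := P s) ⟨hq1, hq3⟩ ⟨hpS, hy2⟩) hq2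
      · omega
      · omega
    obtain ⟨g1, hg1, g2, hg2, hgi⟩ := exists_indep hG2 (p := P s) ⟨hpS, hy2⟩
    have hf0β : ⟪y, f0⟫ < β := hy3 f0 (memF hf0).1 (memF hf0).2 (hPf0 s)
    let v : Fin 3 → W := ![⟨P s - f0, hmemW _ hpS⟩, ⟨g1 - f0, hmemW _ hg1.1⟩,
      ⟨g2 - f0, hmemW _ hg2.1⟩]
    let T : (Fin 3 → ℝ) →ₗ[ℝ] W := Fintype.linearCombination ℝ v
    have hT : ∀ c, ((T c : W) : E n) = c 0 • (P s - f0) + c 1 • (g1 - f0) + c 2 • (g2 - f0) := by
      intro c
      simp [T, v, Fintype.linearCombination_apply, Fin.sum_univ_three]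
    have hTinj : Function.Injective T := by
      rw [← LinearMap.ker_eq_bot, LinearMap.ker_eq_bot']
      intro c hc0
      have h1 := hT c
      rw [hc0] at h1
      have h2 := congrArg (fun z => ⟪y, z⟫) h1
      simp only [ZeroMemClass.coe_zero, inner_zero_right, inner_add_right, inner_smul_right,
        inner_sub_right, hy2, hg1.2, hg2.2] at h2
      have h3 : c 0 + c 1 + c 2 = 0 := by
        have : (c 0 + c 1 + c 2) * (β - ⟪y, f0⟫) = 0 := by linarith
        exact (mul_eq_zero.1 this).resolve_right (by linarith)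
      have h4 := hgi (c 1) (c 2) (by
        have e : c 0 = -c 1 - c 2 := by linarith
        rw [ZeroMemClass.coe_zero, e] at h1
        rw [h1]
        module)
      funext i
      fin_cases i
      · simp only [Fin.zero_eta, Pi.zero_apply]; linarith [h4.1, h4.2]
      · exact h4.1
      · exact h4.2
    have hTsurj : Function.Surjective T := by
      have h1 := LinearMap.finrank_le_finrank_of_injective hTinj
      rw [← LinearMap.injective_iff_surjective_of_finrank_eq_finrank (by simp at h1 ⊢; omega)]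
      exact hTinj
    refine ⟨y, β, T '' {c | ∀ i, 0 < c i}, T.isOpenMap_of_finiteDimensional hTsurj _ ?_,
      ⟨_, fun _ => 1, fun _ => one_pos, rfl⟩, hy1,
      fun x hx hxp => hy3 x (memF hx).1 (memF hx).2 hxp, ?_⟩
    · have : {c : Fin 3 → ℝ | ∀ i, 0 < c i} = ⋂ i, {c | 0 < c i} := by ext c; simp
      rw [this]
      exact isOpen_iInter_of_finite fun i => isOpen_lt continuous_const (continuous_apply i)
    · rintro _ ⟨c, hc', rfl⟩
      have c0 := hc' 0
      have c1 := hc' 1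
      have c2 := hc' 2
      have hw : (c 1 / (c 1 + c 2)) • g1 + (c 2 / (c 1 + c 2)) • g2 ∈ {x ∈ S | ⟪y, x⟫ = β} :=
        hG.1 hg1 hg2 (by positivity) (by positivity) (by field_simp)
      have hg : (c 0 / (c 0 + c 1 + c 2)) • P s + ((c 1 + c 2) / (c 0 + c 1 + c 2)) •
          ((c 1 / (c 1 + c 2)) • g1 + (c 2 / (c 1 + c 2)) • g2) ∈ {x ∈ S | ⟪y, x⟫ = β} :=
        hG.1 ⟨hpS, hy2⟩ hw (by positivity) (by positivity) (by field_simp; ring)
      refine ⟨c 0 + c 1 + c 2, _, by positivity, hg.1, hg.2, ?_, ?_⟩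
      · exact ((minFace_isFace hS hg.1).2.2 _ hpS _ hw.1 ⟨_, ⟨_, _, by positivity, by positivity,
          by field_simp; ring, rfl⟩, mem_minFace_self hg.1⟩).1
      · rw [hT]
        match_scalars <;> field_simp <;> ring
  choose! y β U hU1 hU2 hU3 hU4 hU5 using hopen
  have hcount : {s | P s ≠ 0}.Countable := by
    refine Set.PairwiseDisjoint.countable_of_isOpen (s := U) ?_ (fun s hs => hU1 s hs)
      (fun s hs => hU2 s hs)
    intro s hs t ht hst
    rw [Function.onFun, Set.disjoint_left]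
    intro u hus hut
    obtain ⟨c, g, c0, gS, gy, gm, gu⟩ := hU5 s hs u hus
    obtain ⟨c', g', c0', gS', gy', gm', gu'⟩ := hU5 t ht u hut
    have e : c • (g - f0) = c' • (g' - f0) := gu.symm.trans gu'
    have i1 := congrArg (fun z => ⟪y s, z⟫) e
    have i2 := congrArg (fun z => ⟪y t, z⟫) e
    simp only [inner_smul_right, inner_sub_right, gy, gy'] at i1 i2
    have j1 := hU4 s hs f0 hf0 (hPf0 s)
    have j2 := hU4 t ht f0 hf0 (hPf0 t)
    have j3 := hU3 s hs g' gS'
    have j4 := hU3 t ht g gS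
    have k1 : c ≤ c' := by nlinarith
    have k2 : c' ≤ c := by nlinarith
    have k3 : c = c' := le_antisymm k1 k2
    subst k3
    have k4 : g = g' := by
      have := smul_right_injective (E n) c0.ne' e
      simpa using this
    subst k4
    have k5 := minFace_subset (exposed_isFace hS (y t) (β t) (hU3 t ht)) ⟨gS, gy'⟩ gm
    have k6 := hU4 t ht (P s) (hτF s) (fun h => hst (hPinj h))
    linarith [k5.2]
  have hcount2 : {s | P s = 0}.Countable :=
    (Set.Subsingleton.countable fun s hs t ht => hPinj (hs.trans ht.symm))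
  have hall : (univ : Set (Ioo (0 : ℝ) 1)).Countable := by
    refine (hcount.union hcount2).mono fun s _ => ?_
    by_cases h : P s = 0
    · exact Or.inr h
    · exact Or.inl h
  have : (Ioo (0 : ℝ) 1).Countable := by
    rw [countable_univ_iff] at hall
    exact hall
  have h2 := this.measure_zero MeasureTheory.volume
  simp at h2

end Pool.Agent.MP_f0e28a_gt.H81
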