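import Pool.Agent.MP_f0e28a_gt.H81.Spec

open scoped RealInnerProductSpace
open Set Module Filter Topology

namespace Pool.Agent.MP_f0e28a_gt.H81

variable {e : ℕ}

/-- kills the first `j` coordinates and the last one -/
noncomputable def PP (j : ℕ) : E (e + 1) →ₗ[ℝ] E (e + 1) where
  toFun x := WithLp.toLp 2 fun i => if j ≤ i.val ∧ i ≠ Fin.last e then x i else 0
  map_add' x y := by
    ext i; simp only [PiLp.add_apply]; split_ifs <;> simp
  map_smul' c x := by
    ext i; simp only [PiLp.smul_apply, RingHom.id_apply]; split_ifs <;> simp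

lemma PP_apply (j : ℕ) (x : E (e + 1)) (i : Fin (e + 1)) :
    PP j x i = if j ≤ i.val ∧ i ≠ Fin.last e then x i else 0 := rfl

/-- last coordinate -/
noncomputable def TT : E (e + 1) →ₗ[ℝ] ℝ where
  toFun x := x (Fin.last e)
  map_add' _ _ := rfl
  map_smul' _ _ := rfl

lemma TT_apply (x : E (e + 1)) : TT x = x (Fin.last e) := rfl

noncomputable def el : E (e + 1) := EuclideanSpace.single (Fin.last e) 1

lemma PP_el (j : ℕ) : PP j (el : E (e + 1)) = 0 := by
  ext i
  rw [PP_apply]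
  split_ifs with h
  · simp [el, h.2]
  · rfl

lemma TT_el : TT (el : E (e + 1)) = 1 := by simp [TT_apply, el]
lemma TT_PP (j : ℕ) (x : E (e + 1)) : TT (PP j x) = 0 := by simp [TT_apply, PP_apply]
lemma inner_el (x : E (e + 1)) : ⟪el, x⟫ = TT x := by simp [el, TT_apply, EuclideanSpace.inner_single_left]

lemma PP_PP {j k : ℕ} (h : j ≤ k) (x : E (e + 1)) : PP k (PP j x) = PP k x := by
  ext i
  simp only [PP_apply]
  by_cases h1 : k ≤ i.val ∧ i ≠ Fin.last e
  · rw [if_pos h1, if_pos h1, if_pos ⟨h.trans h1.1, h1.2⟩]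
  · rw [if_neg h1, if_neg h1]

lemma PP_PP' {j k : ℕ} (h : j ≤ k) (x : E (e + 1)) : PP j (PP k x) = PP k x := by
  ext i
  simp only [PP_apply]
  by_cases h1 : k ≤ i.val ∧ i ≠ Fin.last e
  · rw [if_pos h1, if_pos ⟨h.trans h1.1, h1.2⟩]
  · rw [if_neg h1]; simp

lemma inner_PP (j : ℕ) (x y : E (e + 1)) : ⟪PP j x, y⟫ = ⟪PP j x, PP j y⟫ := by
  simp only [PiLp.inner_apply, PP_apply]
  refine Finset.sum_congr rfl fun i _ => ?_
  split_ifs <;> simp

lemma norm_PP_le {j k : ℕ} (h : j ≤ k) (x : E (e + 1)) : ‖PP k x‖ ≤ ‖PP j x‖ := by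
  have h1 : ‖PP k x‖ ^ 2 ≤ ‖PP k x‖ * ‖PP j x‖ := by
    rw [← real_inner_self_eq_norm_sq]
    calc ⟪PP k x, PP k x⟫ = ⟪PP k x, PP j x⟫ := by rw [inner_PP k x (PP j x), PP_PP h]
      _ ≤ _ := real_inner_le_norm _ _
  by_contra hn
  push Not at hn
  nlinarith [norm_nonneg (PP j x)]

lemma soc_cs {V : Type} [NormedAddCommGroup V] [InnerProductSpace ℝ V] {u v : V} {r s t : ℝ}
    (hs : 0 ≤ s) (ht : 0 ≤ t) (h1 : ‖u‖ ^ 2 + r ^ 2 ≤ s ^ 2) (h2 : ‖v‖ ^ 2 + r ^ 2 ≤ t ^ 2) :
    (⟪u, v⟫ + r ^ 2) ^ 2 + r ^ 2 * ‖u - v‖ ^ 2 ≤ (s * t) ^ 2 ∧ ⟪u, v⟫ + r ^ 2 ≤ s * t := by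
  have a1 : ⟪u, v⟫ ^ 2 ≤ ‖u‖ ^ 2 * ‖v‖ ^ 2 := by
    rw [← mul_pow, ← sq_abs]
    exact pow_le_pow_left₀ (abs_nonneg _) (abs_real_inner_le_norm u v) 2
  have a2 : (‖u‖ ^ 2 + r ^ 2) * (‖v‖ ^ 2 + r ^ 2) ≤ s ^ 2 * t ^ 2 :=
    mul_le_mul h1 h2 (by positivity) (by positivity)
  have a3 : (⟪u, v⟫ + r ^ 2) ^ 2 + r ^ 2 * ‖u - v‖ ^ 2 ≤ (s * t) ^ 2 := by
    rw [norm_sub_sq_real]; nlinarith
  refine ⟨a3, (abs_le_of_sq_le_sq' ?_ (by positivity)).2⟩
  nlinarith [mul_nonneg (sq_nonneg r) (sq_nonneg ‖u - v‖)]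

lemma soc_eq {V : Type} [NormedAddCommGroup V] [InnerProductSpace ℝ V] {u v : V} {r s t : ℝ}
    (hr : 0 < r) (hs : 0 ≤ s) (ht : 0 ≤ t) (h1 : ‖u‖ ^ 2 + r ^ 2 ≤ s ^ 2)
    (h2 : ‖v‖ ^ 2 + r ^ 2 ≤ t ^ 2) (h : s * t ≤ ⟪u, v⟫ + r ^ 2) :
    u = v ∧ s = t ∧ ‖u‖ ^ 2 + r ^ 2 = s ^ 2 := by
  obtain ⟨a1, a2⟩ := soc_cs hs ht h1 h2
  have a3 : ⟪u, v⟫ + r ^ 2 = s * t := le_antisymm a2 h
  rw [a3] at a1
  have a4 : ‖u - v‖ ^ 2 ≤ 0 := by
    by_contra hn
    push Not at hn
    have : 0 < r ^ 2 * ‖u - v‖ ^ 2 := by positivity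
    linarith
  have a5 : u = v := by
    have : ‖u - v‖ = 0 := by nlinarith [norm_nonneg (u - v)]
    exact sub_eq_zero.1 (norm_eq_zero.1 this)
  subst a5
  rw [real_inner_self_eq_norm_sq] at a3
  have s0 : 0 < s := by
    rcases hs.lt_or_eq with h | h
    · exact h
    · subst h; nlinarith [sq_nonneg ‖u‖]
  have t0 : 0 < t := by
    rcases ht.lt_or_eq with h | h
    · exact h
    · subst h; nlinarith [sq_nonneg ‖u‖]
  have b1 : t ≤ s := by nlinarith
  have b2 : s ≤ t := by nlinarith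
  have b3 : s = t := le_antisymm b2 b1
  subst b3
  exact ⟨rfl, rfl, by rw [a3]; ring⟩

/-- the spectrahedron -/
def SS (e : ℕ) (J : Finset ℕ) : Set (E (e + 1)) :=
  {x | 0 ≤ TT x ∧ ∀ j ∈ J, ‖PP j x‖ ^ 2 + ((j : ℝ) + 1) ^ 2 ≤ TT x ^ 2}

def act (j : ℕ) (x : E (e + 1)) : Prop := ‖PP j x‖ ^ 2 + ((j : ℝ) + 1) ^ 2 = TT x ^ 2

lemma SS_spec {J : Finset ℕ} (hJ : J.Nonempty) : IsSpectrahedron (SS e J) := by
  have : SS e J = ⋂ j ∈ J, {x | 0 ≤ TT x ∧ ‖PP j x‖ ^ 2 + ((j : ℝ) + 1) ^ 2 ≤ TT x ^ 2} := by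
    ext x
    simp only [SS, mem_ofPred_eq, mem_iInter]
    obtain ⟨j0, hj0⟩ := hJ
    exact ⟨fun h j hj => ⟨h.1, h.2 j hj⟩, fun h => ⟨(h j0 hj0).1, fun j hj => (h j hj).2⟩⟩
  rw [this]
  exact (isSpec'_biInter J _ fun j => isSpec'_soc _ _ _).isSpectrahedron

lemma SS_convex (J : Finset ℕ) : Convex ℝ (SS e J) := by
  intro x hx y hy a b ha hb hab
  refine ⟨?_, fun j hj => ?_⟩
  · rw [map_add, map_smul, map_smul, smul_eq_mul, smul_eq_mul]
    have := hx.1
    have := hy.1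
    positivity
  · have h1 := hx.2 j hj
    have h2 := hy.2 j hj
    have h3 := (soc_cs hx.1 hy.1 h1 h2).2
    rw [map_add, map_smul, map_smul, map_add, map_smul, map_smul, smul_eq_mul, smul_eq_mul,
      norm_add_sq_real, norm_smul, norm_smul, inner_smul_left, inner_smul_right, mul_pow, mul_pow,
      Real.norm_eq_abs, Real.norm_eq_abs, sq_abs, sq_abs]
    simp only [conj_trivial]
    have e1 : ((j : ℝ) + 1) ^ 2 = (a + b) ^ 2 * ((j : ℝ) + 1) ^ 2 := by rw [hab]; ring
    rw [e1]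
    nlinarith [mul_le_mul_of_nonneg_left h1 (sq_nonneg a), mul_le_mul_of_nonneg_left h2 (sq_nonneg b),
      mul_le_mul_of_nonneg_left h3 (mul_nonneg ha hb)]

lemma TT_pos {J : Finset ℕ} (hJ : J.Nonempty) {x : E (e + 1)} (hx : x ∈ SS e J) : 0 < TT x := by
  obtain ⟨j, hj⟩ := hJ
  have h1 := hx.2 j hj
  rcases hx.1.lt_or_eq with h | h
  · exact h
  · rw [← h] at h1
    have : (0 : ℝ) < ((j : ℝ) + 1) ^ 2 := by positivity
    nlinarith [sq_nonneg ‖PP j x‖]

lemma exists_pos_of_eventually {p : ℝ → Prop} (h : ∀ᶠ ε in 𝓝 (0 : ℝ), p ε) : ∃ ε, 0 < ε ∧ p ε := by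
  have : ∀ᶠ ε in 𝓝[>] (0 : ℝ), p ε := h.filter_mono nhdsWithin_le_nhds
  obtain ⟨ε, h1, h2⟩ := (this.and self_mem_nhdsWithin).exists
  exact ⟨ε, h2, h1⟩

lemma perturb {J : Finset ℕ} (hJ : J.Nonempty) {z : E (e + 1)} (hz : z ∈ SS e J) (v : E (e + 1))
    (hv : ∀ j ∈ J, act j z → PP j v = 0 ∧ TT v = 0) : ∃ ε : ℝ, 0 < ε ∧ z + ε • v ∈ SS e J := by
  apply exists_pos_of_eventually
  have c1 : Continuous fun ε : ℝ => TT (z + ε • v) := by
    simp only [map_add, map_smul]; fun_prop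
  have h1 : ∀ᶠ ε in 𝓝 (0 : ℝ), 0 < TT (z + ε • v) :=
    c1.continuousAt.eventually (lt_mem_nhds (by simpa using TT_pos hJ hz))
  have h2 : ∀ᶠ ε in 𝓝 (0 : ℝ), ∀ j ∈ J,
      ‖PP j (z + ε • v)‖ ^ 2 + ((j : ℝ) + 1) ^ 2 ≤ TT (z + ε • v) ^ 2 := by
    rw [eventually_all_finset]
    intro j hj
    by_cases ha : act j z
    · refine Eventually.of_forall fun ε => ?_
      rw [map_add, map_smul, map_add, map_smul, (hv j hj ha).1, (hv j hj ha).2]
      simpa using hz.2 j hj
    · have c2 : Continuous fun ε : ℝ =>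
          TT (z + ε • v) ^ 2 - (‖PP j (z + ε • v)‖ ^ 2 + ((j : ℝ) + 1) ^ 2) := by
        simp only [map_add, map_smul]; fun_prop
      have := c2.continuousAt.eventually (lt_mem_nhds (a := 0) (b := _) (show (0 : ℝ) <
          TT (z + (0 : ℝ) • v) ^ 2 - (‖PP j (z + (0 : ℝ) • v)‖ ^ 2 + ((j : ℝ) + 1) ^ 2) by
        simp only [zero_smul, add_zero]
        exact sub_pos.2 (lt_of_le_of_ne (hz.2 j hj) ha)))
      exact this.mono fun ε h => by linarith
  filter_upwards [h1, h2] with ε a b using ⟨a.le, b⟩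

/-- the face exposed at `z` by constraint `i` -/
def GG (J : Finset ℕ) (z : E (e + 1)) (i : ℕ) : Set (E (e + 1)) :=
  {x ∈ SS e J | ⟪PP i z - TT z • el, x⟫ = -((i : ℝ) + 1) ^ 2}

lemma inner_a (z x : E (e + 1)) (i : ℕ) :
    ⟪PP i z - TT z • el, x⟫ = ⟪PP i z, PP i x⟫ - TT z * TT x := by
  rw [inner_sub_left, inner_smul_left, inner_el, ← inner_PP]; simp

lemma GG_le {J : Finset ℕ} {z : E (e + 1)} (hz : z ∈ SS e J) {i : ℕ} (hi : i ∈ J) :
    ∀ x ∈ SS e J, ⟪PP i z - TT z • el, x⟫ ≤ -((i : ℝ) + 1) ^ 2 := by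
  intro x hx
  rw [inner_a]
  linarith [(soc_cs hz.1 hx.1 (hz.2 i hi) (hx.2 i hi)).2]

lemma mem_GG {J : Finset ℕ} {z : E (e + 1)} (hz : z ∈ SS e J) {i : ℕ} (hi : i ∈ J) (ha : act i z)
    {x : E (e + 1)} : x ∈ GG J z i ↔ x ∈ SS e J ∧ PP i z = PP i x ∧ TT z = TT x := by
  constructor
  · rintro ⟨hx, h⟩
    rw [inner_a] at h
    have := soc_eq (by positivity) hz.1 hx.1 (hz.2 i hi) (hx.2 i hi) (by linarith)
    exact ⟨hx, this.1, this.2.1⟩
  · rintro ⟨hx, h1, h2⟩
    refine ⟨hx, ?_⟩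
    rw [inner_a, ← h1, ← h2, real_inner_self_eq_norm_sq]
    unfold act at ha
    linarith

lemma finrank_D {i : ℕ} (hi : i ≤ e) :
    finrank ℝ (LinearMap.ker (PP i : E (e + 1) →ₗ[ℝ] E (e + 1)) ⊓ LinearMap.ker TT :
      Submodule ℝ (E (e + 1))) = i := by
  set D : Submodule ℝ (E (e + 1)) := LinearMap.ker (PP i : E (e + 1) →ₗ[ℝ] E (e + 1)) ⊓
    LinearMap.ker TT with hD
  have hmem : ∀ v : E (e + 1), v ∈ D ↔ ∀ k : Fin (e + 1), i ≤ k.val → v k = 0 := by
    intro v
    simp only [hD, Submodule.mem_inf, LinearMap.mem_ker, TT_apply]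
    constructor
    · rintro ⟨h1, h2⟩ k hk
      by_cases hl : k = Fin.last e
      · rw [hl]; exact h2
      · have := congrArg (fun w : E (e + 1) => w k) h1
        simpa [PP_apply, hk, hl] using this
    · intro h
      refine ⟨?_, h _ (by simpa using hi)⟩
      ext k
      rw [PP_apply]
      split_ifs with hk
      · exact h k hk.1
      · rfl
  let R : D →ₗ[ℝ] (Fin i → ℝ) :=
    { toFun := fun v k => (v : E (e + 1)) (Fin.castLE (by omega) k)
      map_add' := fun _ _ => rfl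
      map_smul' := fun _ _ => rfl }
  have hR : Function.Bijective R := by
    constructor
    · intro v w h
      apply Subtype.ext
      ext k
      by_cases hk : i ≤ k.val
      · rw [(hmem _).1 v.2 k hk, (hmem _).1 w.2 k hk]
      · exact congrFun h ⟨k.val, by omega⟩
    · intro c
      refine ⟨⟨WithLp.toLp 2 fun k => if h : k.val < i then c ⟨k.val, h⟩ else 0, ?_⟩, ?_⟩
      · rw [hmem]
        intro k hk
        simp only
        rw [dif_neg (by omega)]
      · funext k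
        simp [R]
  rw [(LinearEquiv.ofBijective R hR).finrank_eq]
  simp

lemma smul_mem_dr {F : Set (E (e + 1))} {z v : E (e + 1)} {ε : ℝ} (hε : 0 < ε) (hz : z ∈ F)
    (h : z + ε • v ∈ F) : v ∈ dr F := by
  have := vsub_mem_vectorSpan ℝ h hz
  rw [← dr_eq, vsub_eq_sub, add_sub_cancel_left] at this
  exact ((dr F).smul_mem_iff hε.ne').1 this

lemma dim_GG {J : Finset ℕ} (hJ : J.Nonempty) {z : E (e + 1)} (hz : z ∈ SS e J) {i : ℕ}
    (hi : i ∈ J) (hie : i ≤ e) (ha : act i z) (hmin : ∀ j ∈ J, act j z → i ≤ j) :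
    finrank ℝ (dr (GG J z i)) = i := by
  have hzG : z ∈ GG J z i := (mem_GG hz hi ha).2 ⟨hz, rfl, rfl⟩
  have : dr (GG J z i) = LinearMap.ker (PP i : E (e + 1) →ₗ[ℝ] E (e + 1)) ⊓ LinearMap.ker TT := by
    apply le_antisymm
    · rw [dr_eq, vectorSpan_eq_span_vsub_set_right ℝ hzG, Submodule.span_le]
      rintro _ ⟨x, hx, rfl⟩
      obtain ⟨-, h1, h2⟩ := (mem_GG hz hi ha).1 hx
      simp [h1, h2]
    · rintro v ⟨h1, h2⟩
      have h1' : PP i v = 0 := h1
      have h2' : TT v = 0 := h2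
      obtain ⟨ε, hε, h⟩ := perturb hJ hz v fun j hj haj =>
        ⟨by rw [← PP_PP (hmin j hj haj), h1', map_zero], h2'⟩
      exact smul_mem_dr hε hzG ((mem_GG hz hi ha).2 ⟨h, by simp [h1'], by simp [h2']⟩)
  rw [this, finrank_D hie]

lemma face_cases {J : Finset ℕ} (hJ : J.Nonempty) {F : Set (E (e + 1))} (hne : F.Nonempty)
    (hF : IsFace (SS e J) F) : F = SS e J ∨ ∃ z ∈ SS e J, ∃ i ∈ J, act i z ∧
      (∀ j ∈ J, act j z → i ≤ j) ∧ F = GG J z i := by
  classical
  by_cases h0 : ∃ z ∈ F, ∀ j ∈ J, ¬ act j z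
  · left
    obtain ⟨z, hz, h⟩ := h0
    refine Subset.antisymm hF.2.1 fun w hw => minFace_subset hF hz ⟨hw, ?_⟩
    exact perturb hJ (hF.2.1 hz) _ fun j hj ha => absurd ha (h j hj)
  · right
    push Not at h0
    set M := J.filter fun i => ∃ z ∈ F, act i z ∧ ∀ j ∈ J, act j z → i ≤ j with hM
    have hex : ∀ z ∈ F, ∃ i ∈ M, act i z := by
      intro z hz
      obtain ⟨i, hi, h⟩ := (J.filter fun j => act j z).exists_min_image id
        (by obtain ⟨j, hj, h⟩ := h0 z hz; exact ⟨j, Finset.mem_filter.2 ⟨hj, h⟩⟩)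
      obtain ⟨hi1, hi2⟩ := Finset.mem_filter.1 hi
      exact ⟨i, Finset.mem_filter.2 ⟨hi1, z, hz, hi2,
        fun j hj ha => h j (Finset.mem_filter.2 ⟨hj, ha⟩)⟩, hi2⟩
    obtain ⟨i, hi, hmax⟩ := M.exists_max_image id
      (by obtain ⟨z, hz⟩ := hne; obtain ⟨i, hi, -⟩ := hex z hz; exact ⟨i, hi⟩)
    obtain ⟨hiJ, z, hz, ha, hmin⟩ := Finset.mem_filter.1 hi
    have hzS := hF.2.1 hz
    refine ⟨z, hzS, i, hiJ, ha, hmin, Subset.antisymm (fun w hw => ?_) fun w hw => ?_⟩
    · have hwS := hF.2.1 hw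
      have hFc : Convex ℝ F := hF.1
      obtain ⟨j, hj, haj⟩ := hex _ (hFc hz hw (a := 1 / 2) (b := 1 / 2) (by norm_num)
        (by norm_num) (by norm_num))
      have hjJ := (Finset.mem_filter.1 hj).1
      have h1 := hzS.2 j hjJ
      have h2 := hwS.2 j hjJ
      unfold act at haj
      rw [map_add, map_smul, map_smul, map_add, map_smul, map_smul, ← smul_add, norm_smul, mul_pow,
        norm_add_sq_real, smul_eq_mul, smul_eq_mul, Real.norm_eq_abs, sq_abs] at haj
      have h3 := soc_eq (by positivity) hzS.1 hwS.1 h1 h2 (by nlinarith)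
      have h4 : i = j := le_antisymm (hmin j hjJ h3.2.2) (hmax j hj)
      subst h4
      exact (mem_GG hzS hiJ ha).2 ⟨hwS, h3.1, h3.2.1⟩
    · obtain ⟨hwS, h1, h2⟩ := (mem_GG hzS hiJ ha).1 hw
      refine minFace_subset hF hz ⟨hwS, perturb hJ hzS _ fun j hj haj => ⟨?_, by simp [h2]⟩⟩
      rw [← PP_PP (hmin j hj haj), map_sub, h1, sub_self, map_zero]

lemma SS_exposed {J : Finset ℕ} (hJ : J.Nonempty) : FaciallyExposed (SS e J) := by
  intro F hne hFS hF
  rcases face_cases hJ hne hF with h | ⟨z, hz, i, hi, ha, -, h⟩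
  · exact absurd h hFS
  · refine ⟨_, _, fun h0 => ?_, GG_le hz hi, h⟩
    have := congrArg TT h0
    rw [map_sub, map_smul, TT_PP, TT_el, map_zero] at this
    have := TT_pos hJ hz
    simp at *
    linarith

lemma top_mem {J : Finset ℕ} (hJe : ∀ j ∈ J, j ≤ e) :
    ((e : ℝ) + 2) • (el : E (e + 1)) ∈ SS e J ∧
      ∀ j ∈ J, ¬ act j (((e : ℝ) + 2) • (el : E (e + 1))) := by
  have key : ∀ j ∈ J, ‖PP j (((e : ℝ) + 2) • (el : E (e + 1)))‖ ^ 2 + ((j : ℝ) + 1) ^ 2 <
      TT (((e : ℝ) + 2) • (el : E (e + 1))) ^ 2 := by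
    intro j hj
    have : (j : ℝ) ≤ e := by exact_mod_cast hJe j hj
    have : (0 : ℝ) ≤ j := Nat.cast_nonneg j
    rw [map_smul, map_smul, PP_el, TT_el]
    simp only [smul_zero, norm_zero, smul_eq_mul, mul_one]
    nlinarith
  refine ⟨⟨?_, fun j hj => (key j hj).le⟩, fun j hj => (key j hj).ne⟩
  rw [map_smul, TT_el]
  simp only [smul_eq_mul, mul_one]
  positivity

lemma dim_SS {J : Finset ℕ} (hJ : J.Nonempty) (hJe : ∀ j ∈ J, j ≤ e) :
    finrank ℝ (dr (SS e J)) = e + 1 := by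
  have : dr (SS e J) = ⊤ := by
    rw [eq_top_iff]
    intro v _
    obtain ⟨ε, hε, h⟩ := perturb hJ (top_mem hJe).1 v fun j hj ha => absurd ha ((top_mem hJe).2 j hj)
    exact smul_mem_dr hε (top_mem hJe).1 h
  rw [this]
  simp

lemma exists_active {J : Finset ℕ} (hJe : ∀ j ∈ J, j ≤ e) {i : ℕ} (hi : i ∈ J) :
    ∃ z ∈ SS e J, act i z ∧ ∀ j ∈ J, act j z → i ≤ j := by
  have hie := hJe i hi
  set y : E (e + 1) := PP i (EuclideanSpace.single ⟨i, by omega⟩ ((e : ℝ) + 1)) with hy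
  have h1 : ∀ j, j ≤ i → PP j y = y := fun j hj => PP_PP' hj _
  have h2 : ∀ j, i < j → PP j y = 0 := by
    intro j hj
    rw [hy, PP_PP hj.le]
    ext k
    rw [PP_apply]
    split_ifs with hk
    · rw [EuclideanSpace.single_apply, if_neg]
      · rfl
      · rintro rfl
        have := hk.1
        simp only at this
        omega
    · rfl
  have h3 : i < e → ((e : ℝ) + 1) ^ 2 ≤ ‖y‖ ^ 2 := by
    intro h
    have a1 := PiLp.norm_apply_le y ⟨i, by omega⟩
    have a2 : y ⟨i, by omega⟩ = (e : ℝ) + 1 := by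
      rw [hy, PP_apply, if_pos ⟨le_rfl, fun h' => by
        have := congrArg Fin.val h'
        simp at this
        omega⟩]
      simp
    rw [a2, Real.norm_of_nonneg (by positivity)] at a1
    gcongr
  set t := Real.sqrt (‖y‖ ^ 2 + ((i : ℝ) + 1) ^ 2) with ht
  have ht2 : t ^ 2 = ‖y‖ ^ 2 + ((i : ℝ) + 1) ^ 2 := Real.sq_sqrt (by positivity)
  have hT : TT (y + t • el) = t := by rw [map_add, map_smul, hy, TT_PP, TT_el]; simp
  have hP : ∀ j, PP j (y + t • el) = PP j y := fun j => by rw [map_add, map_smul, PP_el]; simp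
  refine ⟨y + t • el, ⟨by rw [hT]; exact Real.sqrt_nonneg _, fun j hj => ?_⟩, ?_, fun j hj ha => ?_⟩
  · rw [hT, hP, ht2]
    by_cases hji : j ≤ i
    · rw [h1 j hji]
      have : (j : ℝ) ≤ i := by exact_mod_cast hji
      gcongr
    · have hje := hJe j hj
      rw [h2 j (by omega), norm_zero]
      have a1 := h3 (by omega)
      have : (j : ℝ) ≤ e := by exact_mod_cast hje
      have a2 : ((j : ℝ) + 1) ^ 2 ≤ ((e : ℝ) + 1) ^ 2 := by gcongr
      nlinarith [sq_nonneg ((i : ℝ) + 1)]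
  · unfold act
    rw [hT, hP, ht2, h1 i le_rfl]
  · by_contra hn
    unfold act at ha
    rw [hT, hP, ht2, h1 j (by omega)] at ha
    have : (j : ℝ) < i := by exact_mod_cast (by omega : j < i)
    have : (0 : ℝ) ≤ j := Nat.cast_nonneg j
    nlinarith

lemma SS_signature {J : Finset ℕ} (hJ : J.Nonempty) (hJe : ∀ j ∈ J, j ≤ e) :
    signature (SS e J) = insert (e + 1) (J : Set ℕ) := by
  ext d
  rw [mem_signature]
  constructor
  · rintro ⟨F, hne, hF, rfl⟩
    rcases face_cases hJ hne hF with h | ⟨z, hz, i, hi, ha, hmin, h⟩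
    · rw [h, dim_SS hJ hJe]; exact Or.inl rfl
    · rw [h, dim_GG hJ hz hi (hJe i hi) ha hmin]; exact Or.inr hi
  · rintro (rfl | hd)
    · exact ⟨SS e J, ⟨_, (top_mem hJe).1⟩, self_isFace (SS_convex J), dim_SS hJ hJe⟩
    · obtain ⟨z, hz, ha, hmin⟩ := exists_active hJe hd
      exact ⟨GG J z d, ⟨z, (mem_GG hz hd ha).2 ⟨hz, rfl, rfl⟩⟩,
        exposed_isFace (SS_convex J) _ _ (GG_le hz hd), dim_GG hJ hz hd (hJe d hd) ha hmin⟩

/-- the polar cone -/
def LL (e d : ℕ) : Set (E (e + 1)) := {y | y = PP d y + TT y • el ∧ ‖PP d y‖ ≤ -TT y}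

lemma polar_SS {J : Finset ℕ} (hJe : ∀ j ∈ J, j ≤ e) {d : ℕ} (hd : d ∈ J) (hmin : ∀ j ∈ J, d ≤ j) :
    polar (SS e J) = LL e d := by
  have hb : ∀ x ∈ SS e J, ∀ j ∈ J, ‖PP j x‖ ≤ TT x := fun x hx j hj =>
    (abs_le_of_sq_le_sq' (by nlinarith [hx.2 j hj, sq_nonneg ((j : ℝ) + 1)]) hx.1).2
  ext y
  constructor
  · intro hy
    have key : ∀ k : E (e + 1), ‖PP d k‖ ≤ TT k → ⟪k, y⟫ ≤ 0 := by
      intro k hk
      obtain ⟨x, hx⟩ : ∃ x, x ∈ SS e J := ⟨_, (top_mem hJe).1⟩
      have k0 : 0 ≤ TT k := (norm_nonneg _).trans hk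
      have hl : ∀ l : ℝ, 0 ≤ l → x + l • k ∈ SS e J := by
        intro l hl
        refine ⟨?_, fun j hj => ?_⟩
        · rw [map_add, map_smul, smul_eq_mul]
          have := hx.1
          positivity
        · have a1 := hx.2 j hj
          have a2 := (norm_PP_le (hmin j hj) k).trans hk
          have a3 := hb x hx j hj
          have a4 : ⟪PP j x, PP j k⟫ ≤ TT x * TT k :=
            (real_inner_le_norm _ _).trans (mul_le_mul a3 a2 (norm_nonneg _) hx.1)
          have a5 : ‖PP j k‖ ^ 2 ≤ TT k ^ 2 := by gcongr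
          rw [map_add, map_smul, map_add, map_smul, norm_add_sq_real, norm_smul, inner_smul_right,
            mul_pow, Real.norm_eq_abs, sq_abs, smul_eq_mul]
          nlinarith [mul_le_mul_of_nonneg_left a4 hl, mul_le_mul_of_nonneg_left a5 (sq_nonneg l)]
      by_contra hn
      push Not at hn
      have := hy _ (hl ((|⟪x, y⟫| + 2) / ⟪k, y⟫) (by positivity))
      rw [inner_add_left, inner_smul_left] at this
      simp only [conj_trivial] at this
      rw [div_mul_cancel₀ _ hn.ne'] at this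
      linarith [neg_abs_le ⟪x, y⟫]
    constructor
    · set w := y - (PP d y + TT y • el) with hw
      have w1 : PP d w = 0 := by
        rw [hw, map_sub, map_add, map_smul, PP_el, PP_PP le_rfl]; simp
      have w2 : TT w = 0 := by
        rw [hw, map_sub, map_add, map_smul, TT_el, TT_PP]; simp
      have w3 := key w (by rw [w1, w2]; simp)
      have w4 : ⟪w, y⟫ = ‖w‖ ^ 2 := by
        have : y = w + (PP d y + TT y • el) := by rw [hw]; abel
        conv_lhs => rw [this]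
        rw [inner_add_right, inner_add_right, real_inner_self_eq_norm_sq, inner_smul_right,
          real_inner_comm (PP d y), inner_PP, w1, real_inner_comm el, inner_el, w2]
        simp
      have : ‖w‖ = 0 := by nlinarith [norm_nonneg w]
      exact sub_eq_zero.1 (norm_eq_zero.1 this)
    · have a1 := key el (by rw [PP_el, TT_el]; simp)
      rw [inner_el] at a1
      have a2 := key (PP d y + ‖PP d y‖ • el) (by
        rw [map_add, map_smul, map_add, map_smul, PP_el, PP_PP le_rfl, TT_PP, TT_el]; simp)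
      rw [inner_add_left, inner_smul_left, inner_el, inner_PP, real_inner_self_eq_norm_sq] at a2
      simp only [conj_trivial] at a2
      by_contra hn
      push Not at hn
      nlinarith [norm_nonneg (PP d y)]
  · rintro ⟨h1, h2⟩ x hx
    rw [h1, inner_add_right, inner_smul_right, real_inner_comm (PP d y), inner_PP,
      real_inner_comm el, inner_el]
    have a1 := real_inner_le_norm (PP d y) (PP d x)
    have a2 := hb x hx d hd
    have a3 := hx.1
    nlinarith [mul_le_mul_of_nonneg_left a2 (norm_nonneg (PP d y)),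
      mul_le_mul_of_nonneg_left h2 a3]

lemma LL_exposed (d : ℕ) : FaciallyExposed (LL e d) := by
  intro F hne hFL hF
  have hlin : ∀ z ∈ LL e d, ∀ w ∈ LL e d, ∀ ε : ℝ, z + ε • (z - w) =
      PP d (z + ε • (z - w)) + TT (z + ε • (z - w)) • el := by
    intro z hz w hw ε
    simp only [map_add, map_smul, map_sub, smul_eq_mul]
    conv_lhs => rw [hz.1, hw.1]
    module
  have hall : ∀ z ∈ F, ‖PP d z‖ = -TT z := by
    intro z hz
    by_contra hn
    apply hFL
    have hzL := hF.2.1 hz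
    refine Subset.antisymm hF.2.1 fun w hw => minFace_subset hF hz ⟨hw, ?_⟩
    apply exists_pos_of_eventually
    have c2 : Continuous fun ε : ℝ => -TT (z + ε • (z - w)) - ‖PP d (z + ε • (z - w))‖ := by
      simp only [map_add, map_smul]; fun_prop
    have := c2.continuousAt.eventually (lt_mem_nhds (a := 0) (b := _) (show (0 : ℝ) <
        -TT (z + (0 : ℝ) • (z - w)) - ‖PP d (z + (0 : ℝ) • (z - w))‖ by
      simp only [zero_smul, add_zero]
      exact sub_pos.2 (lt_of_le_of_ne hzL.2 hn)))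
    exact this.mono fun ε h => ⟨hlin z hzL w hw ε, by linarith⟩
  by_cases h0 : ∀ z ∈ F, PP d z = 0
  · refine ⟨el, 0, fun h => ?_, fun x hx => ?_, ?_⟩
    · have := congrArg TT h
      rw [TT_el] at this
      simp at this
    · rw [inner_el]; linarith [hx.2, norm_nonneg (PP d x)]
    · have hz0 : ∀ z ∈ F, TT z = 0 := fun z hz => by
        have := hall z hz
        rw [h0 z hz, norm_zero] at this
        linarith
      have hzero : ∀ x ∈ LL e d, TT x = 0 → x = 0 := fun x hx h => by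
        have a1 := hx.2
        rw [h, neg_zero, norm_le_zero_iff] at a1
        rw [hx.1, a1, h]; simp
      ext x
      simp only [mem_ofPred_eq, inner_el]
      refine ⟨fun hx => ⟨hF.2.1 hx, hz0 x hx⟩, fun hx => ?_⟩
      obtain ⟨z, hz⟩ := hne
      rw [hzero x hx.1 hx.2, ← hzero z (hF.2.1 hz) (hz0 z hz)]
      exact hz
  · push Not at h0
    obtain ⟨z, hz, hz0⟩ := h0
    have hN : 0 < ‖PP d z‖ := norm_pos_iff.2 hz0
    have hin : ∀ x, ⟪PP d z + ‖PP d z‖ • el, x⟫ = ⟪PP d z, PP d x⟫ + ‖PP d z‖ * TT x := fun x => by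
      rw [inner_add_left, inner_smul_left, inner_el, ← inner_PP]; simp
    refine ⟨PP d z + ‖PP d z‖ • el, 0, fun h => ?_, fun x hx => ?_, ?_⟩
    · have := congrArg TT h
      rw [map_add, map_smul, TT_el, TT_PP] at this
      simp at this
      exact hz0 this
    · rw [hin]
      nlinarith [real_inner_le_norm (PP d z) (PP d x), mul_le_mul_of_nonneg_left hx.2 hN.le]
    · ext w
      simp only [mem_ofPred_eq, hin]
      constructor
      · intro hw
        refine ⟨hF.2.1 hw, ?_⟩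
        have hFc : Convex ℝ F := hF.1
        have a1 := hall _ (hFc hz hw (a := 1 / 2) (b := 1 / 2) (by norm_num)
          (by norm_num) (by norm_num))
        have a2 := hall z hz
        have a3 := hall w hw
        rw [map_add, map_smul, map_smul, map_add, map_smul, map_smul, ← smul_add, norm_smul,
          smul_eq_mul, smul_eq_mul, Real.norm_of_nonneg (by norm_num)] at a1
        have a4 : ‖PP d z + PP d w‖ = ‖PP d z‖ + ‖PP d w‖ := by linarith
        have a5 := norm_add_sq_real (PP d z) (PP d w)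
        rw [a4] at a5
        have a6 : TT w = -‖PP d w‖ := by linarith
        rw [a6]
        nlinarith
      · rintro ⟨hw, h⟩
        have a1 := real_inner_le_norm (PP d z) (PP d w)
        have a2 := mul_le_mul_of_nonneg_left hw.2 hN.le
        have a3 : ⟪PP d z, PP d w⟫ = ‖PP d z‖ * ‖PP d w‖ := by linarith
        have a4 : TT w = -‖PP d w‖ := by
          have : ‖PP d z‖ * (TT w + ‖PP d w‖) = 0 := by linarith
          have := (mul_eq_zero.1 this).resolve_left hN.ne'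
          linarith
        have a5 := inner_eq_norm_mul_iff_real.1 a3
        have a6 := hall z hz
        have hzL := hF.2.1 hz
        set l := ‖PP d w‖ / ‖PP d z‖ with hl
        have l0 : 0 ≤ l := by positivity
        have a7 : PP d w = l • PP d z := by
          rw [hl, div_eq_inv_mul, ← smul_smul, a5, smul_smul, inv_mul_cancel₀ hN.ne', one_smul]
        have a8 : TT w = l * TT z := by
          have : TT z = -‖PP d z‖ := by linarith
          rw [a4, this, hl]; field_simp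
        refine minFace_subset hF hz ⟨hw, 1 / (1 + l), by positivity, hlin z hzL w hw _, ?_⟩
        have e1 : PP d (z + (1 / (1 + l)) • (z - w)) = (2 / (1 + l)) • PP d z := by
          rw [map_add, map_smul, map_sub, a7]
          match_scalars
          field_simp
          ring
        have e2 : TT (z + (1 / (1 + l)) • (z - w)) = (2 / (1 + l)) * TT z := by
          rw [map_add, map_smul, map_sub, a8, smul_eq_mul]
          field_simp
          ring
        rw [e1, e2, norm_smul, Real.norm_of_nonneg (by positivity), a6]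
        linarith

lemma face_univ {n : ℕ} {F : Set (E n)} (hne : F.Nonempty) (hF : IsFace univ F) : F = univ := by
  obtain ⟨z, hz⟩ := hne
  exact eq_univ_of_forall fun w => minFace_subset hF hz ⟨trivial, 1, one_pos, trivial⟩

theorem pos_main (I : Finset ℕ) (hI : I.Nonempty) :
    ∃ (n : ℕ) (S : Set (E n)), IsSpectrahedron S ∧ signature S = (I : Set ℕ) ∧
      FaciallyExposed S ∧ FaciallyExposed (polar S) := by
  obtain ⟨d, hd, hmax⟩ := I.exists_max_image id hI
  by_cases hJ : (I.erase d).Nonempty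
  · obtain ⟨d0, hd0, hmin⟩ := (I.erase d).exists_min_image id hJ
    have hlt : ∀ j ∈ I.erase d, j < d := fun j hj =>
      lt_of_le_of_ne (hmax j (Finset.mem_of_mem_erase hj)) (Finset.ne_of_mem_erase hj)
    obtain ⟨e, rfl⟩ : ∃ e, d = e + 1 := ⟨d - 1, by have := hlt d0 hd0; omega⟩
    have hJe : ∀ j ∈ I.erase (e + 1), j ≤ e := fun j hj => by have := hlt j hj; omega
    refine ⟨e + 1, SS e (I.erase (e + 1)), SS_spec hJ, ?_, SS_exposed hJ, ?_⟩
    · rw [SS_signature hJ hJe, ← Finset.coe_insert, Finset.insert_erase hd]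
    · rw [polar_SS hJe hd0 hmin]; exact LL_exposed d0
  · have hId : I = {d} := by
      rw [Finset.not_nonempty_iff_eq_empty] at hJ
      rw [← Finset.insert_erase hd, hJ]; rfl
    refine ⟨d, univ, isSpec'_univ.isSpectrahedron, ?_, ?_, ?_⟩
    · have hdr : finrank ℝ (dr (univ : Set (E d))) = d := by
        rw [dr_eq, ← direction_affineSpan, AffineSubspace.span_univ, AffineSubspace.direction_top]
        simp
      ext k
      rw [mem_signature, hId]
      constructor
      · rintro ⟨F, hne, hF, rfl⟩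
        rw [face_univ hne hF, hdr]; simp
      · intro hk
        have : k = d := by simpa using hk
        rw [this]
        exact ⟨univ, univ_nonempty, self_isFace convex_univ, hdr⟩
    · intro F hne hF h
      exact absurd (face_univ hne h) hF
    · intro F hne hF h
      exfalso
      apply hF
      have hz : ∀ y ∈ polar (univ : Set (E d)), y = 0 := by
        intro y hy
        by_contra h0
        have hN : 0 < ‖y‖ ^ 2 := by positivity
        have := hy ((2 / ‖y‖ ^ 2) • y) trivial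
        rw [inner_smul_left, real_inner_self_eq_norm_sq] at this
        simp only [conj_trivial] at this
        rw [div_mul_cancel₀ _ hN.ne'] at this
        linarith
      obtain ⟨z, hzF⟩ := hne
      refine Subset.antisymm h.2.1 fun y hy => ?_
      rw [hz y hy, ← hz z (h.2.1 hzF)]
      exact hzF

end Pool.Agent.MP_f0e28a_gt.H81
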