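import Pool.Agent.MP_f0e28a_gt.H81.Neg

open scoped RealInnerProductSpace
open Set Module Matrix

namespace Pool.Agent.MP_f0e28a_gt.H81

variable {n : ℕ}

def IsSpec' (S : Set (E n)) : Prop :=
  ∃ (ι : Type) (_ : Fintype ι) (M0 : Matrix ι ι ℝ) (M : E n →ₗ[ℝ] Matrix ι ι ℝ),
    M0.IsSymm ∧ (∀ x, (M x).IsSymm) ∧
      S = {x | ∀ w : ι → ℝ, 0 ≤ w ⬝ᵥ ((M0 + M x) *ᵥ w)}

lemma IsSpec'.isSpectrahedron {S : Set (E n)} (h : IsSpec' S) : IsSpectrahedron S := by
  obtain ⟨ι, _, M0, M, h0, h1, rfl⟩ := h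
  let e := (Fintype.equivFin ι).symm
  refine ⟨Fintype.card ι, M0.submatrix e e,
    fun i => (M (EuclideanSpace.single i 1)).submatrix e e, h0.submatrix _,
    fun i => (h1 _).submatrix _, ?_⟩
  ext x
  have hx : M0.submatrix e e + ∑ i, x i • (M (EuclideanSpace.single i 1)).submatrix e e =
      (M0 + M x).submatrix e e := by
    have : x = ∑ i, x i • EuclideanSpace.single i (1 : ℝ) := by
      ext k
      simp [Pi.single_apply]
    conv_rhs => rw [this, map_sum]
    ext a b
    simp [Matrix.sum_apply]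
  simp only [mem_ofPred_eq]
  rw [hx, posSemidef_submatrix_equiv, posSemidef_iff_dotProduct_mulVec]
  have : (M0 + M x).IsHermitian := by
    rw [IsHermitian, conjTranspose_eq_transpose_of_trivial]
    exact h0.add (h1 x)
  exact ⟨fun h => ⟨this, fun w => by simpa using h w⟩, fun h w => by simpa using h.2 w⟩

lemma isSpec'_univ : IsSpec' (univ : Set (E n)) :=
  ⟨Empty, inferInstance, 0, 0, Matrix.isSymm_zero, fun _ => Matrix.isSymm_zero, by
    ext x; simp⟩

lemma IsSpec'.inter {S T : Set (E n)} (hS : IsSpec' S) (hT : IsSpec' T) : IsSpec' (S ∩ T) := by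
  obtain ⟨ι, _, M0, M, h0, h1, rfl⟩ := hS
  obtain ⟨κ, _, N0, N, g0, g1, rfl⟩ := hT
  refine ⟨ι ⊕ κ, inferInstance, fromBlocks M0 0 0 N0,
    { toFun := fun x => fromBlocks (M x) 0 0 (N x)
      map_add' := fun x y => by simp [fromBlocks_add]
      map_smul' := fun c x => by simp [fromBlocks_smul] },
    IsSymm.fromBlocks h0 (by simp) g0, fun x => IsSymm.fromBlocks (h1 x) (by simp) (g1 x), ?_⟩
  ext x
  simp only [mem_inter_iff, mem_ofPred_eq, LinearMap.coe_mk, AddHom.coe_mk, fromBlocks_add, add_zero]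
  have key : ∀ (u : ι → ℝ) (v : κ → ℝ), Sum.elim u v ⬝ᵥ
      (fromBlocks (M0 + M x) 0 0 (N0 + N x) *ᵥ Sum.elim u v) =
      u ⬝ᵥ ((M0 + M x) *ᵥ u) + v ⬝ᵥ ((N0 + N x) *ᵥ v) := by
    intro u v
    rw [fromBlocks_mulVec, sumElim_dotProduct_sumElim]
    simp
  constructor
  · rintro ⟨a, b⟩ w
    rw [← Sum.elim_comp_inl_inr w, key]
    exact add_nonneg (a _) (b _)
  · intro h
    refine ⟨fun u => ?_, fun v => ?_⟩
    · have := h (Sum.elim u 0)
      rw [key] at this
      simpa using this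
    · have := h (Sum.elim 0 v)
      rw [key] at this
      simpa using this

lemma isSpec'_biInter {α : Type} (J : Finset α) (S : α → Set (E n)) (h : ∀ j, IsSpec' (S j)) :
    IsSpec' (⋂ j ∈ J, S j) := by
  classical
  induction J using Finset.induction_on with
  | empty => simpa using isSpec'_univ
  | insert a J _ ih =>
    rw [Finset.set_biInter_insert]
    exact (h a).inter ih

def arrow {κ : Type} [DecidableEq κ] (t : ℝ) (u : κ → ℝ) : Matrix (Option κ) (Option κ) ℝ
  | none, none => t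
  | none, some k => u k
  | some k, none => u k
  | some k, some l => if k = l then t else 0

lemma arrow_form {κ : Type} [Fintype κ] [DecidableEq κ] (t : ℝ) (u : κ → ℝ) (w : Option κ → ℝ) :
    w ⬝ᵥ (arrow t u *ᵥ w) =
      t * w none ^ 2 + 2 * w none * ∑ k, u k * w (some k) + t * ∑ k, w (some k) ^ 2 := by
  simp only [dotProduct, mulVec, Fintype.sum_option, arrow, ite_mul, zero_mul, Finset.sum_ite_eq,
    Finset.mem_univ, if_true, mul_add, Finset.sum_add_distrib, Finset.mul_sum, mul_ite, mul_zero]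
  have e1 : ∑ k, w (some k) * (u k * w none) = ∑ k, w none * (u k * w (some k)) :=
    Finset.sum_congr rfl fun k _ => by ring
  have e2 : ∑ k, w (some k) * (t * w (some k)) = ∑ k, t * w (some k) ^ 2 :=
    Finset.sum_congr rfl fun k _ => by ring
  have e3 : ∑ k, 2 * w none * (u k * w (some k)) = 2 * ∑ k, w none * (u k * w (some k)) := by
    rw [Finset.mul_sum]; exact Finset.sum_congr rfl fun k _ => by ring
  rw [e1, e2, e3]
  ring

lemma arrow_psd {κ : Type} [Fintype κ] [DecidableEq κ] (t : ℝ) (u : κ → ℝ) :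
    (∀ w : Option κ → ℝ, 0 ≤ w ⬝ᵥ (arrow t u *ᵥ w)) ↔ 0 ≤ t ∧ ∑ k, u k ^ 2 ≤ t ^ 2 := by
  simp only [arrow_form]
  constructor
  · intro h
    have h0 : 0 ≤ t := by simpa using h (fun o => o.elim 1 fun _ => 0)
    refine ⟨h0, ?_⟩
    have e : ∑ k, u k * -u k = -∑ k, u k ^ 2 := by
      rw [← Finset.sum_neg_distrib]; exact Finset.sum_congr rfl fun k _ => by ring
    rcases h0.lt_or_eq with h1 | h1
    · have := h (fun o => o.elim t fun k => -u k)
      simp only [Option.elim, neg_sq, e] at this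
      by_contra hn
      push Not at hn
      nlinarith
    · have := h (fun o => o.elim 1 fun k => -u k)
      simp only [Option.elim, neg_sq, e, ← h1] at this ⊢
      linarith
  · rintro ⟨h0, h1⟩ w
    have cs := Finset.sum_mul_sq_le_sq_mul_sq Finset.univ u (fun k => w (some k))
    set A := ∑ k, u k * w (some k)
    set B := ∑ k, w (some k) ^ 2
    have B0 : 0 ≤ B := Finset.sum_nonneg fun k _ => sq_nonneg _
    have h2 : A ^ 2 ≤ t ^ 2 * B := cs.trans (mul_le_mul_of_nonneg_right h1 B0)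
    have h3 : (2 * w none * A) ^ 2 ≤ (t * w none ^ 2 + t * B) ^ 2 := by
      nlinarith [mul_le_mul_of_nonneg_left h2 (sq_nonneg (w none)),
        mul_nonneg (sq_nonneg t) (sq_nonneg (w none ^ 2 - B))]
    have h4 := abs_le_of_sq_le_sq' h3 (by positivity)
    linarith [h4.1]

lemma isSpec'_soc (P : E n →ₗ[ℝ] E n) (τ : E n →ₗ[ℝ] ℝ) (r : ℝ) :
    IsSpec' {x | 0 ≤ τ x ∧ ‖P x‖ ^ 2 + r ^ 2 ≤ τ x ^ 2} := by
  refine ⟨Option (Option (Fin n)), inferInstance, arrow 0 (fun o => o.elim r fun _ => 0),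
    { toFun := fun x => arrow (τ x) (fun o => o.elim 0 fun k => P x k)
      map_add' := fun x y => ?_
      map_smul' := fun c x => ?_ }, ?_, fun x => ?_, ?_⟩
  · ext a b
    rcases a with _ | _ | a <;> rcases b with _ | _ | b <;> simp [arrow]
    split_ifs <;> simp
  · ext a b
    rcases a with _ | _ | a <;> rcases b with _ | _ | b <;> simp [arrow]
  · ext a b
    rcases a with _ | _ | a <;> rcases b with _ | _ | b <;> simp [arrow]
  · ext a b
    rcases a with _ | _ | a <;> rcases b with _ | _ | b <;> simp [arrow, eq_comm]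
  · ext x
    have : arrow 0 (fun o : Option (Fin n) => o.elim r fun _ => 0) +
        arrow (τ x) (fun o => o.elim 0 fun k => P x k) =
        arrow (τ x) (fun o => o.elim r fun k => P x k) := by
      ext a b
      rcases a with _ | _ | a <;> rcases b with _ | _ | b <;> simp [arrow]
    simp only [mem_ofPred_eq, LinearMap.coe_mk, AddHom.coe_mk]
    rw [this, arrow_psd, Fintype.sum_option, EuclideanSpace.real_norm_sq_eq, add_comm]
    rfl

end Pool.Agent.MP_f0e28a_gt.H81
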